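import Pool.Agent.Helper18.CPC.St

/-!
# Project CPC, module EM: the embeddings of `R` and the characters of the points
-/

set_option autoImplicit false

open Topology Filter Set

namespace Pool.Agent.Helper85.CPC

open Pool.Agent.Helper18.CPC

universe u

section

variable {R : Type u} [TopologicalSpace R] [Data R]

private theorem cont_val (τ : ℕ → Option (R × ℕ)) (per : ∀ n, τ n = none → τ (n + 1) = none)
    (n : ℕ) : Continuous (fun r : R => val n (⟨τ, r, per⟩ : Pt R)) := by
  unfold val
  simp only
  rcases τ n with _ | c
  · exact continuous_id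
  · exact continuous_const

private theorem cont_mk (τ : ℕ → Option (R × ℕ)) (per : ∀ n, τ n = none → τ (n + 1) = none) :
    Continuous (fun r : R => (⟨τ, r, per⟩ : Pt R)) := by
  classical
  rw [continuous_iff]
  refine ⟨fun s => ?_, fun s => ?_, fun w => ?_⟩
  · have e : (fun y : R => dch s (⟨τ, y, per⟩ : Pt R)) =
        fun _ => decide (∀ i < s.length, τ i = s[i]?) := by
      funext y
      unfold dch
      exact decide_eq_decide.2 Iff.rfl
    rw [e]
    exact continuous_const
  · by_cases h : ∀ i < s.length, τ i = s[i]?
    · have e : (fun y : R => F s (⟨τ, y, per⟩ : Pt R)) =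
          fun y => val s.length (⟨τ, y, per⟩ : Pt R) := by
        funext y
        exact F_mem (p := ⟨τ, y, per⟩) h
      rw [e]
      exact cont_val τ per _
    · have e : (fun y : R => F s (⟨τ, y, per⟩ : Pt R)) = fun _ => Data.z := by
        funext y
        exact F_not_mem (p := ⟨τ, y, per⟩) h
      rw [e]
      exact continuous_const
  · by_cases h : ∃ n, τ n ≠ some (w n)
    · have h1 : ∀ i < Nat.find h, τ i = some (w i) := fun i hi => not_not.1 (Nat.find_min h hi)
      have h2 := Nat.find_spec h
      by_cases h3 : τ (Nat.find h) = some (Data.j w)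
      · have e : (fun y : R => G w (⟨τ, y, per⟩ : Pt R)) =
            fun y => val (Nat.find h + 1) (⟨τ, y, per⟩ : Pt R) := by
          funext y
          exact G_at_pos (p := ⟨τ, y, per⟩) h1 h2 h3
        rw [e]
        exact cont_val τ per _
      · have e : (fun y : R => G w (⟨τ, y, per⟩ : Pt R)) = fun _ => Data.z := by
          funext y
          exact G_at_neg (p := ⟨τ, y, per⟩) h1 h2 h3
        rw [e]
        exact continuous_const
    · push Not at h
      have e : (fun y : R => G w (⟨τ, y, per⟩ : Pt R)) = fun y => y := by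
        funext y
        exact G_all (p := ⟨τ, y, per⟩) h
      rw [e]
      exact continuous_id

private theorem gen_of {f : R → Pt R} {g : Pt R → R} (hgf : ∀ r, g (f r) = r) (hf : Continuous f)
    (hg : Continuous g) (r : R) (h : (𝓝 (f r)).IsCountablyGenerated) :
    (𝓝 r).IsCountablyGenerated := by
  have h1 : Function.LeftInverse g f := hgf
  have h2 := (h1.isEmbedding hg hf).isInducing.nhds_eq_comap r
  rw [h2]
  infer_instance

end

theorem m_EM : hEM.{u} := by
  intro R _ _
  have c1 : ∀ s : List (R × ℕ), Continuous (fun r : R => fin s r) := fun s => cont_mk _ _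
  have c2 : ∀ w : ℕ → R × ℕ, Continuous (fun r : R => inf w r) := fun w => cont_mk _ _
  refine ⟨c1, c2, fun hR p hp => ?_⟩
  rcases cases_pt p with ⟨s, hs⟩ | ⟨w, hw⟩
  · rw [hs] at hp
    exact hR p.r (gen_of (F_fin s) (c1 s) (continuous_F s) p.r hp)
  · rw [hw] at hp
    exact hR p.r (gen_of (G_inf w) (c2 w) (continuous_G w) p.r hp)

end Pool.Agent.Helper85.CPC
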